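import Mathlib

set_option autoImplicit false

open Real Set

namespace Pool.Agent.MP_d5a48f_an.H16

/-- The cellular velocity field. -/
noncomputable def U (x : EuclideanSpace ℝ (Fin 2)) : EuclideanSpace ℝ (Fin 2) :=
  !₂[sin (x 0) * cos (x 1), -(cos (x 0) * sin (x 1))]

/-- The pressure of the cellular flow. -/
noncomputable def Pr (x : EuclideanSpace ℝ (Fin 2)) : ℝ :=
  -((sin (x 0)) ^ 2 + (sin (x 1)) ^ 2) / 2

@[simp] lemma U_zero (x : EuclideanSpace ℝ (Fin 2)) : U x 0 = sin (x 0) * cos (x 1) := by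
  simp [U]

@[simp] lemma U_one (x : EuclideanSpace ℝ (Fin 2)) : U x 1 = -(cos (x 0) * sin (x 1)) := by
  simp [U]

lemma U_contDiff : ContDiff ℝ ⊤ U := by
  rw [contDiff_euclidean]
  intro i
  fin_cases i
  · simp only [Fin.zero_eta, U_zero]; fun_prop
  · simp only [Fin.mk_one, U_one]; fun_prop

lemma Pr_contDiff : ContDiff ℝ ⊤ Pr := by
  unfold Pr; fun_prop

lemma hasFDerivAt_coord (x : EuclideanSpace ℝ (Fin 2)) (i : Fin 2) :
    HasFDerivAt (fun y : EuclideanSpace ℝ (Fin 2) => y i)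
      (EuclideanSpace.proj i : EuclideanSpace ℝ (Fin 2) →L[ℝ] ℝ) x :=
  (EuclideanSpace.proj i : EuclideanSpace ℝ (Fin 2) →L[ℝ] ℝ).hasFDerivAt

lemma fderiv_U_zero (x v : EuclideanSpace ℝ (Fin 2)) :
    fderiv ℝ U x v 0 = cos (x 0) * cos (x 1) * v 0 - sin (x 0) * sin (x 1) * v 1 := by
  have hU : HasFDerivAt U (fderiv ℝ U x) x :=
    (U_contDiff.differentiable (by simp) x).hasFDerivAt
  have h1 := (hasFDerivAt_coord (U x) 0).comp x hU
  have h2 := ((hasFDerivAt_coord x 0).sin).mul ((hasFDerivAt_coord x 1).cos)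
  have h3 : ((fun y : EuclideanSpace ℝ (Fin 2) => y 0) ∘ U) =
      (fun y : EuclideanSpace ℝ (Fin 2) => sin (y 0)) * fun y => cos (y 1) := by
    funext y; simp
  rw [h3] at h1
  have h4 := congrArg (fun L => L v) (h1.unique h2)
  simp at h4
  rw [h4]; ring

lemma fderiv_U_one (x v : EuclideanSpace ℝ (Fin 2)) :
    fderiv ℝ U x v 1 = sin (x 0) * sin (x 1) * v 0 - cos (x 0) * cos (x 1) * v 1 := by
  have hU : HasFDerivAt U (fderiv ℝ U x) x :=
    (U_contDiff.differentiable (by simp) x).hasFDerivAt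
  have h1 := (hasFDerivAt_coord (U x) 1).comp x hU
  have h2 := (((hasFDerivAt_coord x 0).cos).mul ((hasFDerivAt_coord x 1).sin)).neg
  have h3 : ((fun y : EuclideanSpace ℝ (Fin 2) => y 1) ∘ U) =
      -((fun y : EuclideanSpace ℝ (Fin 2) => cos (y 0)) * fun y => sin (y 1)) := by
    funext y; simp
  rw [h3] at h1
  have h4 := congrArg (fun L => L v) (h1.unique h2)
  simp at h4
  rw [h4]; ring

lemma fderiv_Pr (x v : EuclideanSpace ℝ (Fin 2)) :
    fderiv ℝ Pr x v = -(sin (x 0) * cos (x 0) * v 0 + sin (x 1) * cos (x 1) * v 1) := by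
  have h2 := (((((hasFDerivAt_coord x 0).sin).pow 2).add
    (((hasFDerivAt_coord x 1).sin).pow 2)).neg).mul_const (1 / 2 : ℝ)
  have h3 : Pr = fun y : EuclideanSpace ℝ (Fin 2) =>
      (-((fun y : EuclideanSpace ℝ (Fin 2) => sin (y 0) ^ 2) +
        (fun y : EuclideanSpace ℝ (Fin 2) => sin (y 1) ^ 2))) y * (1 / 2 : ℝ) := by
    funext y; simp [Pr]; ring
  rw [h3, h2.fderiv]
  simp
  ring

lemma gradient_Pr (x : EuclideanSpace ℝ (Fin 2)) (i : Fin 2) :
    gradient Pr x i = -(sin (x i) * cos (x i)) := by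
  have h : inner ℝ (gradient Pr x) (EuclideanSpace.single i (1 : ℝ)) =
      fderiv ℝ Pr x (EuclideanSpace.single i (1 : ℝ)) := by
    simp [gradient]
  rw [EuclideanSpace.inner_single_right, fderiv_Pr] at h
  fin_cases i <;> simpa using h

lemma euler (x : EuclideanSpace ℝ (Fin 2)) : fderiv ℝ U x (U x) + gradient Pr x = 0 := by
  ext i
  fin_cases i
  · simp only [Fin.zero_eta, PiLp.add_apply, fderiv_U_zero, gradient_Pr, U_zero, U_one,
      PiLp.zero_apply]
    have := sin_sq_add_cos_sq (x 1)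
    linear_combination (sin (x 0) * cos (x 0)) * this
  · simp only [Fin.mk_one, PiLp.add_apply, fderiv_U_one, gradient_Pr, U_zero, U_one,
      PiLp.zero_apply]
    have := sin_sq_add_cos_sq (x 0)
    linear_combination (sin (x 1) * cos (x 1)) * this

lemma divfree (x : EuclideanSpace ℝ (Fin 2)) :
    ∑ i, fderiv ℝ U x (EuclideanSpace.single i 1) i = 0 := by
  simp [Fin.sum_univ_two, fderiv_U_zero, fderiv_U_one]

lemma norm_U_le (x : EuclideanSpace ℝ (Fin 2)) : ‖U x‖ ≤ 1 := by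
  rw [EuclideanSpace.norm_eq, Real.sqrt_le_one]
  simp only [Fin.sum_univ_two, U_zero, U_one, Real.norm_eq_abs, sq_abs]
  have h0 := sin_sq_add_cos_sq (x 0)
  have h1 := sin_sq_add_cos_sq (x 1)
  nlinarith [sq_nonneg (sin (x 0) * sin (x 1)), sq_nonneg (cos (x 0) * cos (x 1))]

lemma norm_fderiv_U_le (x : EuclideanSpace ℝ (Fin 2)) : ‖fderiv ℝ U x‖ ≤ 1 := by
  refine ContinuousLinearMap.opNorm_le_bound _ zero_le_one fun v => ?_
  rw [one_mul, EuclideanSpace.norm_eq, EuclideanSpace.norm_eq]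
  apply Real.sqrt_le_sqrt
  simp only [Fin.sum_univ_two, fderiv_U_zero, fderiv_U_one, Real.norm_eq_abs, sq_abs]
  have ha : (cos (x 0 + x 1)) ^ 2 ≤ 1 := cos_sq_le_one _
  have hb : (cos (x 0 - x 1)) ^ 2 ≤ 1 := cos_sq_le_one _
  rw [cos_add] at ha
  rw [cos_sub] at hb
  have h1 := mul_le_mul_of_nonneg_right ha (sq_nonneg (v 0 + v 1))
  have h2 := mul_le_mul_of_nonneg_right hb (sq_nonneg (v 0 - v 1))
  nlinarith

lemma U_lipschitz : LipschitzWith 1 U := by
  apply lipschitzWith_of_nnnorm_fderiv_le (𝕜 := ℝ) (U_contDiff.differentiable (by simp))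
  intro x
  exact_mod_cast norm_fderiv_U_le x

/-- Global existence for a bounded Lipschitz field. -/
lemma exists_global {E : Type*} [NormedAddCommGroup E] [NormedSpace ℝ E] [CompleteSpace E]
    (V : E → E) (hV : LipschitzWith 1 V) (hb : ∀ x, ‖V x‖ ≤ 1) (x : E) :
    ∃ α : ℝ → E, α 0 = x ∧ ∀ t, HasDerivAt α (V (α t)) t := by
  have key : ∀ n : ℕ, ∃ α : ℝ → E, α 0 = x ∧
      ∀ t ∈ Ioo (-((n : ℝ) + 1)) ((n : ℝ) + 1), HasDerivAt α (V (α t)) t := by
    intro n
    have hn : (0 : ℝ) < (n : ℝ) + 1 := by positivity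
    have hpl : IsPicardLindelof (fun _ => V)
        (⟨0, by constructor <;> linarith⟩ : Icc (-((n : ℝ) + 1)) ((n : ℝ) + 1)) x
        ((n : NNReal) + 1) 0 1 1 :=
      { lipschitzOnWith := fun _ _ => hV.lipschitzOnWith
        continuousOn := fun _ _ => continuousOn_const
        norm_le := fun _ _ y _ => by simpa using hb y
        mul_max_le := by simp }
    obtain ⟨α, h0, h⟩ := hpl.exists_eq_forall_mem_Icc_hasDerivWithinAt₀
    exact ⟨α, h0, fun t ht => (h t (Ioo_subset_Icc_self ht)).hasDerivAt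
      (Icc_mem_nhds ht.1 ht.2)⟩
  choose α h0 hα using key
  have agree : ∀ m n : ℕ, m ≤ n → EqOn (α m) (α n) (Ioo (-((m : ℝ) + 1)) ((m : ℝ) + 1)) := by
    intro m n hmn
    have hm : (0 : ℝ) < (m : ℝ) + 1 := by positivity
    have hmn' : (m : ℝ) ≤ n := by exact_mod_cast hmn
    refine ODE_solution_unique_of_mem_Ioo (v := fun _ => V) (s := fun _ => univ) (K := 1)
      (t₀ := 0) (fun _ _ => hV.lipschitzOnWith) ⟨by linarith, hm⟩
      (fun t ht => ⟨hα m t ht, mem_univ _⟩)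
      (fun t ht => ⟨hα n t ⟨by linarith [ht.1], by linarith [ht.2]⟩, mem_univ _⟩) ?_
    rw [h0, h0]
  have mem : ∀ s : ℝ, s ∈ Ioo (-((⌈|s|⌉₊ : ℝ) + 1)) ((⌈|s|⌉₊ : ℝ) + 1) := by
    intro s
    have := Nat.le_ceil |s|
    have h1 := le_abs_self s
    have h2 := neg_abs_le s
    constructor <;> linarith
  refine ⟨fun t => α ⌈|t|⌉₊ t, h0 _, fun t => ?_⟩
  have hev : (fun s => α ⌈|s|⌉₊ s) =ᶠ[nhds t] α (⌈|t|⌉₊ + 1) := by
    filter_upwards [Ioo_mem_nhds (show t - 1 < t by linarith) (show t < t + 1 by linarith)]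
      with s hs
    apply agree _ _ _ (mem s)
    rw [Nat.ceil_le]
    push_cast
    have := Nat.le_ceil |t|
    have h1 := le_abs_self t
    have h2 := neg_abs_le t
    rw [abs_le]
    constructor <;> linarith [hs.1, hs.2]
  have ht : α ⌈|t|⌉₊ t = α (⌈|t|⌉₊ + 1) t := hev.eq_of_nhds
  beta_reduce
  rw [ht]
  refine (hα (⌈|t|⌉₊ + 1) t ?_).congr_of_eventuallyEq hev
  have := mem t
  push_cast
  constructor <;> linarith [this.1, this.2]

end Pool.Agent.MP_d5a48f_an.H16
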