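import Mathlib

set_option autoImplicit false

open Real Set

namespace Pool.Agent.MP_d5a48f_an.H16

section traj
variable {x y : ℝ → ℝ} (hx : ∀ t, HasDerivAt x (sin (x t) * cos (y t)) t)
  (hy : ∀ t, HasDerivAt y (-(cos (x t) * sin (y t))) t)

include hx in
lemma traj_g (μ t : ℝ) : HasDerivAt (fun s => sin (x s) ^ 2 * exp (-(2 * μ * s)))
    (2 * sin (x t) ^ 2 * exp (-(2 * μ * t)) * (cos (x t) * cos (y t) - μ)) t := by
  have h0 : HasDerivAt (fun s => -(2 * μ * s)) (-(2 * μ)) t := by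
    simpa using ((hasDerivAt_id t).const_mul (2 * μ)).fun_neg
  have h1 := ((hx t).sin.fun_pow 2).fun_mul h0.exp
  refine h1.congr_deriv ?_
  simp; ring

include hx in
/-- Upper bound on the growth of the first sine. -/
lemma sin_sq_upper (t : ℝ) (ht : 0 ≤ t) :
    sin (x t) ^ 2 ≤ sin (x 0) ^ 2 * exp (2 * t) := by
  have hanti : Antitone (fun s => sin (x s) ^ 2 * exp (-(2 * 1 * s))) := by
    apply antitone_of_deriv_nonpos (fun s => (traj_g hx 1 s).differentiableAt)
    intro s
    rw [(traj_g hx 1 s).deriv]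
    apply mul_nonpos_of_nonneg_of_nonpos (by positivity)
    have h1 := abs_le.mp (abs_cos_le_one (x s))
    have h2 := abs_le.mp (abs_cos_le_one (y s))
    nlinarith
  have h := hanti ht
  simp only [mul_zero, neg_zero, exp_zero, mul_one] at h
  have he : exp (-(2 * t)) * exp (2 * t) = 1 := by rw [← exp_add]; simp
  calc sin (x t) ^ 2 = sin (x t) ^ 2 * exp (-(2 * t)) * exp (2 * t) := by
        rw [mul_assoc, he, mul_one]
    _ ≤ _ := by gcongr

include hx hy in
/-- Lower bound on the growth of the first sine while it is small. -/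
lemma sin_sq_lower (δ T : ℝ) (hδ : δ ^ 2 < 1) (hT : 0 ≤ T)
    (h0 : sin (x 0) ^ 2 * exp (2 * T) ≤ δ ^ 2) (hc : 0 < cos (x 0))
    (hy0 : 1 - δ ^ 2 ≤ cos (y 0)) :
    sin (x 0) ^ 2 * exp (2 * (1 - δ ^ 2) ^ 2 * T) ≤ sin (x T) ^ 2 := by
  have hcontx : Continuous x := continuous_iff_continuousAt.2 fun s => (hx s).continuousAt
  have hconty : Continuous y := continuous_iff_continuousAt.2 fun s => (hy s).continuousAt
  have hs : ∀ s ∈ Icc 0 T, sin (x s) ^ 2 ≤ δ ^ 2 := by
    intro s hs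
    refine (sin_sq_upper hx s hs.1).trans (le_trans ?_ h0)
    have := hs.2
    gcongr
  have hpos : ∀ s ∈ Icc 0 T, 0 < cos (x s) := by
    intro s hs'
    by_contra hneg
    push Not at hneg
    have hc' : ContinuousOn (fun s => cos (x s)) (Icc 0 s) :=
      (continuous_cos.comp hcontx).continuousOn
    obtain ⟨τ, hτ, hτ0⟩ :=
      intermediate_value_Icc' hs'.1 hc' (show (0 : ℝ) ∈ Icc _ _ from ⟨hneg, hc.le⟩)
    have h1 := hs τ ⟨hτ.1, hτ.2.trans hs'.2⟩
    have h2 := sin_sq_add_cos_sq (x τ)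
    simp only at hτ0
    rw [hτ0] at h2
    linarith
  have hcx : ∀ s ∈ Icc 0 T, 1 - δ ^ 2 ≤ cos (x s) := by
    intro s hs'
    have h1 := hs s hs'
    have h2 := sin_sq_add_cos_sq (x s)
    have h3 := hpos s hs'
    have h4 := cos_le_one (x s)
    nlinarith
  have hmy : MonotoneOn (fun s => cos (y s)) (Icc 0 T) := by
    apply monotoneOn_of_deriv_nonneg (convex_Icc 0 T) (continuous_cos.comp hconty).continuousOn
      (fun s _ => (hy s).cos.differentiableAt.differentiableWithinAt)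
    intro s hs'
    change 0 ≤ deriv (fun s => cos (y s)) s
    rw [(hy s).cos.deriv]
    have h3 := hpos s (interior_subset hs')
    have : -sin (y s) * -(cos (x s) * sin (y s)) = cos (x s) * sin (y s) ^ 2 := by ring
    rw [this]; positivity
  have hcy : ∀ s ∈ Icc 0 T, 1 - δ ^ 2 ≤ cos (y s) := fun s hs' =>
    hy0.trans (hmy ⟨le_rfl, hT⟩ hs' hs'.1)
  have hmono : MonotoneOn (fun s => sin (x s) ^ 2 * exp (-(2 * (1 - δ ^ 2) ^ 2 * s)))
      (Icc 0 T) := by
    apply monotoneOn_of_deriv_nonneg (convex_Icc 0 T)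
      (fun s _ => (traj_g hx _ s).continuousAt.continuousWithinAt)
      (fun s _ => (traj_g hx _ s).differentiableAt.differentiableWithinAt)
    intro s hs'
    rw [(traj_g hx _ s).deriv]
    apply mul_nonneg (by positivity)
    have h1 := hcx s (interior_subset hs')
    have h2 := hcy s (interior_subset hs')
    have h3 : 0 ≤ 1 - δ ^ 2 := by linarith
    have := mul_le_mul h1 h2 h3 (h3.trans h1)
    nlinarith
  have h := hmono ⟨le_rfl, hT⟩ ⟨hT, le_rfl⟩ hT
  simp only [mul_zero, neg_zero, exp_zero, mul_one] at h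
  have he : exp (-(2 * (1 - δ ^ 2) ^ 2 * T)) * exp (2 * (1 - δ ^ 2) ^ 2 * T) = 1 := by
    rw [← exp_add]; simp
  calc sin (x 0) ^ 2 * exp (2 * (1 - δ ^ 2) ^ 2 * T)
      ≤ sin (x T) ^ 2 * exp (-(2 * (1 - δ ^ 2) ^ 2 * T)) * exp (2 * (1 - δ ^ 2) ^ 2 * T) := by
        gcongr
    _ = _ := by rw [mul_assoc, he, mul_one]

include hx in
lemma sin_zero_of (t : ℝ) (ht : 0 ≤ t) (h0 : sin (x 0) = 0) : sin (x t) = 0 := by
  have h := sin_sq_upper hx t ht
  rw [h0] at h
  simpa using h

include hx hy in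
lemma abs_sin_lower (δ T : ℝ) (hδ : δ ^ 2 < 1) (hT : 0 ≤ T)
    (h0 : |sin (x 0)| * exp T ≤ δ) (hc : 0 < cos (x 0))
    (hy0 : 1 - δ ^ 2 ≤ cos (y 0)) :
    |sin (x 0)| * exp ((1 - δ ^ 2) ^ 2 * T) ≤ |sin (x T)| := by
  have h1 : sin (x 0) ^ 2 * exp (2 * T) ≤ δ ^ 2 := by
    have := pow_le_pow_left₀ (by positivity) h0 2
    rw [mul_pow, sq_abs, ← exp_nat_mul] at this
    simpa using this
  have h2 := sin_sq_lower hx hy δ T hδ hT h1 hc hy0
  apply le_of_sq_le_sq _ (abs_nonneg _)
  rw [mul_pow, sq_abs, sq_abs, ← exp_nat_mul]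
  simpa [mul_assoc] using h2

end traj

/-- The oscillating profile. -/
noncomputable def osc (b k : ℕ) (a c : ℝ) (s : ℝ) : ℝ :=
  s ^ k * (a * sin (π / s ^ b) + c * cos (π / s ^ b))

lemma abs_osc_le (b k : ℕ) (a c s : ℝ) : |osc b k a c s| ≤ (|a| + |c|) * |s| ^ k := by
  unfold osc
  rw [abs_mul, abs_pow, mul_comm]
  gcongr
  refine (abs_add_le _ _).trans ?_
  rw [abs_mul, abs_mul]
  have h1 := abs_sin_le_one (π / s ^ b)
  have h2 := abs_cos_le_one (π / s ^ b)
  have h3 := abs_nonneg a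
  have h4 := abs_nonneg c
  nlinarith

lemma osc_hasDerivAt (b j : ℕ) (a c s : ℝ) :
    HasDerivAt (osc b (j + b + 2) a c)
      (((j + b + 2 : ℕ) : ℝ) * osc b (j + b + 1) a c s +
        osc b (j + 1) (π * b * c) (-(π * b * a)) s) s := by
  by_cases hs : s = 0
  · subst hs
    have h0 : ((j + b + 2 : ℕ) : ℝ) * osc b (j + b + 1) a c 0 +
        osc b (j + 1) (π * b * c) (-(π * b * a)) 0 = 0 := by simp [osc]
    rw [h0, hasDerivAt_iff_isLittleO_nhds_zero]
    have h1 : (fun h : ℝ => osc b (j + b + 2) a c (0 + h) - osc b (j + b + 2) a c 0 - h • (0 : ℝ))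
        = osc b (j + b + 2) a c := by
      funext h; simp [osc]
    rw [h1]
    have h2 : osc b (j + b + 2) a c =O[nhds 0] fun h : ℝ => h ^ (j + b + 2) := by
      apply Asymptotics.IsBigO.of_bound (|a| + |c|)
      filter_upwards with h
      simpa [Real.norm_eq_abs, abs_pow] using abs_osc_le b (j + b + 2) a c h
    exact h2.trans_isLittleO (Asymptotics.isLittleO_pow_id (by omega))
  · have hb : s ^ b ≠ 0 := pow_ne_zero _ hs
    have h0 : HasDerivAt (fun s : ℝ => π / s ^ b) (-(π * b) / s ^ (b + 1)) s := by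
      have := ((hasDerivAt_pow b s).fun_inv hb).const_mul π
      simp only [← div_eq_mul_inv] at this
      refine this.congr_deriv ?_
      rcases Nat.eq_zero_or_pos b with rfl | hb0
      · simp
      · obtain ⟨b', rfl⟩ : ∃ b', b = b' + 1 := ⟨b - 1, by omega⟩
        simp only [Nat.add_sub_cancel]
        field_simp
        ring
    have h1 := (hasDerivAt_pow (j + b + 2) s).fun_mul
      ((h0.sin.const_mul a).fun_add (h0.cos.const_mul c))
    refine h1.congr_deriv ?_
    simp only [osc, show j + b + 2 - 1 = j + b + 1 from rfl]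
    field_simp
    ring

lemma osc_continuous (b k : ℕ) (hk : 1 ≤ k) (a c : ℝ) : Continuous (osc b k a c) := by
  rw [continuous_iff_continuousAt]
  intro s
  by_cases hs : s = 0
  · subst hs
    have h0 : osc b k a c 0 = 0 := by
      simp [osc, show k ≠ 0 by omega]
    rw [ContinuousAt, h0]
    apply squeeze_zero_norm (fun h => by simpa using abs_osc_le b k a c h)
    have : Continuous fun h : ℝ => (|a| + |c|) * |h| ^ k := by fun_prop
    simpa [show k ≠ 0 by omega] using this.tendsto 0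
  · have hb : s ^ b ≠ 0 := pow_ne_zero _ hs
    unfold osc
    fun_prop (disch := exact hb)

lemma osc_contDiff (b r : ℕ) : ∀ (k : ℕ), r * (b + 1) + 1 ≤ k → ∀ a c : ℝ,
    ContDiff ℝ r (osc b k a c) := by
  induction r with
  | zero =>
    intro k hk a c
    simpa using osc_continuous b k (by omega) a c
  | succ r ih =>
    intro k hk a c
    obtain ⟨j, rfl⟩ : ∃ j, k = j + b + 2 := ⟨k - b - 2, by rw [add_mul] at hk; omega⟩
    have hj : r * (b + 1) + 1 ≤ j + 1 := by rw [add_mul] at hk; omega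
    push_cast
    rw [contDiff_succ_iff_deriv]
    refine ⟨fun s => (osc_hasDerivAt b j a c s).differentiableAt, by simp, ?_⟩
    have : deriv (osc b (j + b + 2) a c) = fun s =>
        ((j + b + 2 : ℕ) : ℝ) * osc b (j + b + 1) a c s +
          osc b (j + 1) (π * b * c) (-(π * b * a)) s := by
      funext s; exact (osc_hasDerivAt b j a c s).deriv
    rw [this]
    exact (contDiff_const.mul (ih _ (by omega) _ _)).add (ih _ hj _ _)

end Pool.Agent.MP_d5a48f_an.H16
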